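import Pool.Agent.R780.Obata

/-!
There are nilpotent hypercomplex Lie algebras whose Obata connection has a non-abelian holonomy
algebra; the derived length of the holonomy algebra is even unbounded.
-/

open Pool.Agent.R780.Obata

/-- For every `k` there is a finite-dimensional nilpotent real Lie algebra `𝔤` with a hypercomplex
structure such that the holonomy algebra of the Obata connection is not abelian, and moreover the
`k`-th term of its derived series is non-zero. -/
theorem Pool.Agent.Results.MP_590da2_gt.ObataNonabelian.result (k : ℕ) :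
    ∃ (𝔤 : Type) (_ : LieRing 𝔤) (_ : LieAlgebra ℝ 𝔤) (J₁ J₂ J₃ : 𝔤 →ₗ[ℝ] 𝔤),
      FiniteDimensional ℝ 𝔤 ∧ LieRing.IsNilpotent 𝔤 ∧ IsHypercomplex J₁ J₂ J₃ ∧
      (∃ A ∈ holonomyAlgebra J₁ J₂ J₃, ∃ B ∈ holonomyAlgebra J₁ J₂ J₃, A * B ≠ B * A) ∧
      derivedStep^[k] (holonomyAlgebra J₁ J₂ J₃) ≠ ⊥ :=
  main k
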